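import Mathlib
import Pool.Agent.Helper41.DautovMain

set_option autoImplicit false

/-!
# MP_fc26cf_an: an explicit rational filter which extends continuously to the closed bidisc but
is not BIBO stable
-/

open Complex

namespace Pool.Agent.Results.MP_fc26cf_an.ExplicitFilter

open Pool.Agent.Helper41.Dautov

/-- The numerator `A = (1 - z₁)^5`; `X 0` is `z₁`, `X 1` is `z₂`. -/
noncomputable def num : MvPolynomial (Fin 2) ℂ := (1 - MvPolynomial.X 0) ^ 5

/-- The denominator `B = 1 - z₂ (z₁² + (i/8) z₁ (1 - z₁)² - (1/16) (1 - z₁)⁴)`. -/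
noncomputable def den : MvPolynomial (Fin 2) ℂ :=
  1 - MvPolynomial.X 1 * (MvPolynomial.X 0 ^ 2
    + MvPolynomial.C (I / 8) * MvPolynomial.X 0 * (1 - MvPolynomial.X 0) ^ 2
    - MvPolynomial.C (1 / 16) * (1 - MvPolynomial.X 0) ^ 4)

/-- The rational function `H = A / B` (its value is `0` where `B` vanishes). -/
noncomputable def H (z w : ℂ) : ℂ :=
  MvPolynomial.eval ![z, w] num / MvPolynomial.eval ![z, w] den

/-- `h` is the family of coefficients of the power series of `H` in the open unit bidisc. -/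
def IsTaylor (h : ℕ → ℕ → ℂ) : Prop :=
  ∀ z w : ℂ, ‖z‖ < 1 → ‖w‖ < 1 →
    HasSum (fun p : ℕ × ℕ => h p.1 p.2 * z ^ p.1 * w ^ p.2) (H z w)

theorem mem2 {z w : ℂ} {P : ℂ → Prop} (hz : P z) (hw : P w) : ∀ i : Fin 2, P (![z, w] i) := by
  intro i
  fin_cases i
  · exact hz
  · exact hw

theorem one_var (a : ℕ → ℂ) (ha : ∀ w : ℂ, ‖w‖ < 1 → HasSum (fun k => a k * w ^ k) 0) :
    ∀ k, a k = 0 := by
  have h1 : HasFPowerSeriesAt (fun _ : ℂ => (0 : ℂ)) (FormalMultilinearSeries.ofScalars ℂ a) 0 := by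
    rw [hasFPowerSeriesAt_iff]
    filter_upwards [Metric.ball_mem_nhds (0 : ℂ) one_pos] with z hz
    have := ha z (by simpa using hz)
    simpa [mul_comm] using this
  have h2 := HasFPowerSeriesAt.eq_zero h1
  intro k
  have h3 := congrArg (fun p => FormalMultilinearSeries.coeff p k) h2
  have h4 : FormalMultilinearSeries.coeff (0 : FormalMultilinearSeries ℂ ℂ ℂ) k = 0 := rfl
  simp only [h4] at h3
  simpa using h3

theorem two_var (d : ℕ → ℕ → ℂ) (hd : ∀ z w : ℂ, ‖z‖ < 1 → ‖w‖ < 1 →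
    HasSum (fun p : ℕ × ℕ => d p.1 p.2 * z ^ p.1 * w ^ p.2) 0) : ∀ j k, d j k = 0 := by
  have key : ∀ z : ℂ, ‖z‖ < 1 → ∀ k, Summable (fun j => d j k * z ^ j) ∧
      ∑' j, d j k * z ^ j = 0 := by
    intro z hz
    have hs : ∀ k, Summable (fun j => d j k * z ^ j) := by
      intro k
      have h1 := (hd z (1 / 2) hz (by norm_num)).summable
      have h2 := ((Equiv.prodComm ℕ ℕ).summable_iff
        (f := fun p : ℕ × ℕ => d p.1 p.2 * z ^ p.1 * (1 / 2 : ℂ) ^ p.2)).mpr h1
      have h3 := h2.prod_factor k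
      have h4 : Summable (fun j => (d j k * z ^ j) * (1 / 2 : ℂ) ^ k) := h3
      exact (summable_mul_right_iff (pow_ne_zero _ (by norm_num))).1 h4
    have h0 := one_var (fun k => ∑' j, d j k * z ^ j) (fun w hw => by
      have h1 := hd z w hz hw
      have h2 := (Equiv.prodComm ℕ ℕ).hasSum_iff.mpr h1
      refine h2.prod_fiberwise fun k => ?_
      exact (hs k).hasSum.mul_right (w ^ k))
    exact fun k => ⟨hs k, h0 k⟩
  intro j k
  refine one_var (fun j => d j k) (fun z hz => ?_) j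
  have := (key z hz k).1.hasSum
  rwa [(key z hz k).2] at this

/-- **Dautov's conjecture fails**, explicitly and quantitatively. -/
theorem result :
    IsRelPrime num den ∧
    MvPolynomial.eval ![0, 0] den = 1 ∧
    (∀ z w : ℂ, ‖z‖ ≤ 1 → ‖w‖ ≤ 1 → (MvPolynomial.eval ![z, w] den = 0 ↔ z = 1 ∧ w = 1)) ∧
    MvPolynomial.eval ![1, 1] num = 0 ∧
    ContinuousOn (fun p : ℂ × ℂ => H p.1 p.2) {p | ‖p.1‖ ≤ 1 ∧ ‖p.2‖ ≤ 1} ∧
    (∀ z w : ℂ, ‖z‖ ≤ 1 → ‖w‖ ≤ 1 → ‖H z w‖ ≤ (128 / 3) * ‖1 - z‖) ∧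
    ∃ h : ℕ → ℕ → ℂ, IsTaylor h ∧ (∀ h' : ℕ → ℕ → ℂ, IsTaylor h' → h' = h) ∧
      ¬ Summable (fun p : ℕ × ℕ => ‖h p.1 p.2‖) ∧
      (∀ k, Summable fun j => ‖h j k‖) ∧
      ∃ c : ℝ, 0 < c ∧ ∀ k : ℕ, 1 ≤ k → c / k ≤ ∑' j, ‖h j k‖ := by
  have hT : IsTaylor h := by
    intro z w hz hw
    have := hasSum_h (z := ![z, w]) (mem2 (P := fun x => ‖x‖ < 1) hz hw)
    simpa [H, num, den, PA, PB] using this
  refine ⟨relPrime, ?_, ?_, ?_, ?_, ?_, h, hT, ?_, not_summable, ?_, ?_⟩
  · simp [den]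
  · intro z w hz hw
    have e : MvPolynomial.eval ![z, w] den = 1 - w * phi z := by
      have := eval_PB ![z, w]
      simpa [PB, den] using this
    rw [e]
    constructor
    · exact zero_iff hz hw
    · rintro ⟨rfl, rfl⟩
      rw [phi_one]; ring
  · simp [num]
  · have h1 : (fun p : ℂ × ℂ => H p.1 p.2) = F ∘ (fun p : ℂ × ℂ => (![p.1, p.2] : Fin 2 → ℂ)) := by
      funext p
      simp only [H, F, Function.comp]
      rfl
    rw [h1]
    refine ContinuousOn.comp continuousOn_F ?_ ?_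
    · refine Continuous.continuousOn (continuous_pi fun i => ?_)
      fin_cases i
      · exact continuous_fst
      · exact continuous_snd
    · intro p hp
      exact mem2 (P := fun x => ‖x‖ ≤ 1) hp.1 hp.2
  · intro z w hz hw
    have := norm_F_le (z := ![z, w]) (mem2 (P := fun x => ‖x‖ ≤ 1) hz hw)
    exact this
  · intro h' hT'
    have := two_var (fun j k => h' j k - h j k) (fun z w hz hw => by
      have := (hT' z w hz hw).sub (hT z w hz hw)
      rw [sub_self] at this
      refine this.congr_fun ?_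
      intro p; ring)
    funext j k
    exact sub_eq_zero.1 (this j k)
  · intro k
    refine summable_of_ne_finset_zero (s := Finset.range ((row k).natDegree + 1)) ?_
    intro j hj
    have : (row k).coeff j = 0 := by
      apply Polynomial.coeff_eq_zero_of_natDegree_lt
      simpa using hj
    unfold h
    rw [this]; simp
  · refine ⟨((16 / (6 * Real.pi ^ 5)) / (1 + 2 * Real.pi) * Real.sqrt (1 / 8)), ?_, ?_⟩
    · have := Real.pi_pos
      have h8 : 0 < Real.sqrt (1 / 8) := Real.sqrt_pos.mpr (by norm_num)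
      positivity
    · intro k hk
      refine (row_lower hk).trans ?_
      refine Summable.sum_le_tsum _ (fun j _ => norm_nonneg _) ?_
      refine summable_of_ne_finset_zero (s := Finset.range ((row k).natDegree + 1)) ?_
      intro j hj
      have : (row k).coeff j = 0 := by
        apply Polynomial.coeff_eq_zero_of_natDegree_lt
        simpa using hj
      rw [this]; simp

end Pool.Agent.Results.MP_fc26cf_an.ExplicitFilter
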